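import Mathlib
import Pool.Agent.H21.FM.Strand

set_option autoImplicit false
open Finset

/-! # Paths along the walls

(a) all random labels open: the path follows the free arcs forwards; (b) no random label open: the path
follows the wired arcs backwards. -/

namespace Pool.Agent.H21.FM

open Pool.Agent.H75.Perc hiding WL CT hh
open Pool.Agent.H75.TwoArm Pool.Agent.H75.Four Pool.Agent.H69.Q1 Pool.Agent.Q1
open Pool.Agent.H5.Q1 (oc vx_oc ty_oc fi_oc oc_congr oc_inj eq_oc nxC_oc nxO_oc oc_cases)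
open Pool.Agent.Q1.M4 (Cell Good IsSide nextSide tail head PType Adj4 Conn4 dir_add_four)
open Pool.Agent.H33.Q1

/-- The path from `x` reaches `y` through common corners, with total turning `d`. -/
def Go (S : Shape) (h : ℕ) (w : Finset (ℤ × ℤ)) (x y : ℤ × ℤ) (d : ℤ) : Prop :=
  ∃ n : ℕ, (nx w)^[n] x = y ∧ (∀ s < n, CC S h ((nx w)^[s] x)) ∧
    ∀ k, KK (nx w) (del w) x k n = k + d

variable {S : Shape} {h : ℕ} {w W : Finset (ℤ × ℤ)}

lemma Go.refl (S : Shape) (h : ℕ) (w : Finset (ℤ × ℤ)) (x : ℤ × ℤ) : Go S h w x x 0 :=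
  ⟨0, rfl, fun s hs => absurd hs (Nat.not_lt_zero s), fun k => by rw [KK_zero, add_zero]⟩

lemma Go.trans {x y z : ℤ × ℤ} {d d' : ℤ} (h1 : Go S h w x y d) (h2 : Go S h w y z d') :
    Go S h w x z (d + d') := by
  obtain ⟨n, a1, a2, a3⟩ := h1
  obtain ⟨m, b1, b2, b3⟩ := h2
  refine ⟨n + m, ?_, ?_, ?_⟩
  · rw [add_comm, Function.iterate_add_apply, a1, b1]
  · intro s hs
    rcases Nat.lt_or_ge s n with h3 | h3
    · exact a2 s h3
    · obtain ⟨t, rfl⟩ : ∃ t, s = t + n := ⟨s - n, by omega⟩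
      rw [Function.iterate_add_apply, a1]
      exact b2 t (by omega)
  · intro k
    rw [KK_add, a1, a3, b3]
    ring

lemma Go.cast {x y : ℤ × ℤ} {d d' : ℤ} (h1 : Go S h w x y d) (h2 : d = d') : Go S h w x y d' := h2 ▸ h1

lemma Go.closed {p : ℤ × ℤ} {k : ℤ} (hc : CC S h (oc p k)) (hl : ql p (k - 1) ∉ w) :
    Go S h w (oc p k) (oc p (k + 1)) 1 := by
  refine ⟨1, ?_, ?_, ?_⟩
  · exact nx_closed hl
  · intro s hs
    have : s = 0 := by omega
    subst this
    exact hc
  · intro k'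
    rw [show (1 : ℕ) = 0 + 1 from rfl, KK_succ, KK_zero]
    change k' + del w (oc p k) = _
    rw [del_closed hl]

lemma Go.opn {p : ℤ × ℤ} {k : ℤ} (hc : CC S h (oc p k)) (hl : ql p (k - 1) ∈ w) :
    Go S h w (oc p k) (oc (p + dir (k - 1)) (k - 1)) (-1) := by
  refine ⟨1, ?_, ?_, ?_⟩
  · exact nx_open hl
  · intro s hs
    have : s = 0 := by omega
    subst this
    exact hc
  · intro k'
    rw [show (1 : ℕ) = 0 + 1 from rfl, KK_succ, KK_zero]
    change k' + del w (oc p k) = _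
    rw [del_open hl]

lemma cc_lab {p : ℤ × ℤ} {k : ℤ} (hl : ql p (k - 1) ∈ EE S h) : CC S h (oc p k) := by
  left; rw [lab_oc]; exact hl

lemma cc_fv {p : ℤ × ℤ} {k : ℤ} (hl : FV S h p) : CC S h (oc p k) := by
  right; left; rw [vx_oc]; exact hl

/-! ### (a) -/

/-- the diagonal tile at the end of a side -/
lemma ct_diag (hh : 0 < h) (s : Cell × ℤ) :
    ct (2 * h) (tt (ql (wv h s h) s.2)) = s.1 + dir s.2 + dir (s.2 - 1) := by
  have hz : (0 : ℤ) < h := by exact_mod_cast hh
  obtain ⟨q0, q1, q2, q3⟩ := tt_ql (wv h s h) s.2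
  rcases pos_wv hh s h le_rfl with ⟨a, e⟩ | ⟨a, e⟩ | ⟨a, e⟩ | ⟨a, e⟩
  · rw [q0 a, e, dir0 a, dir3 (by omega : (s.2 - 1) % 4 = 3)]
    apply ct_of' hh <;> simp <;> linarith
  · rw [q1 a, e, dir1 a, dir0 (by omega : (s.2 - 1) % 4 = 0)]
    apply ct_of' hh <;> simp <;> linarith
  · rw [q2 a, e, dir2 a, dir1 (by omega : (s.2 - 1) % 4 = 1)]
    apply ct_of' hh <;> simp <;> linarith
  · rw [q3 a, e, dir3 a, dir2 (by omega : (s.2 - 1) % 4 = 2)]
    apply ct_of' hh <;> simp <;> linarith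

lemma diag_notMem (hh : 0 < h) {Q : Finset Cell} {s : Cell × ℤ}
    (hs : nextSide Q s = (s.1, s.2 + 1)) : ql (wv h s h) s.2 ∉ TL Q (2 * h) := by
  intro h1
  have h2 := ((mem_TL (by positivity)).1 h1).2
  rw [ct_diag hh] at h2
  unfold nextSide at hs
  rw [if_pos h2] at hs
  have := congrArg Prod.snd hs
  simp only at this
  omega

section free

variable (hh : 0 < h) (hW : Wir S h W)
include hh hW

lemma free_out {i : ℕ} (hi : S.Fr i) {e : ℤ × ℤ} (he : e ∈ LY (2 * h) (S.P.side i)) :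
    e ∉ EE S h ∪ W := out_notMem (subset_refl _) hh hW hi he

omit hW in
/-- along one tile of a side, all random labels open -/
lemma go_ent_exi (i : ℕ) {j : ℕ} (hj : j < h) :
    Go S h (EE S h ∪ W) (ent h (S.P.side i) j) (exi h (S.P.side i) (j + 1)) (-2) := by
  set s := S.P.side i with hs
  have h1 : ql (wv h s j) (s.2 + 1) ∈ EE S h := in_mem hh (S.isSide i) hj
  have h2 : ql (wv h s (j + 1)) (s.2 + 2) ∈ EE S h :=
    in_mem' hh (S.isSide i) (Nat.succ_pos j) (by omega)
  have e1 : wv h s j + dir (s.2 + 1) + dir s.2 = wv h s (j + 1) := by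
    rw [wv_succ]; abel
  have e2 : ql (wv h s j + dir (s.2 + 1)) s.2 = ql (wv h s (j + 1)) (s.2 + 2) := by
    rw [← e1, ql_other]
  have g1 : Go S h (EE S h ∪ W) (oc (wv h s j) (s.2 + 2)) (oc (wv h s j + dir (s.2 + 1)) (s.2 + 1))
      (-1) := by
    have := Go.opn (S := S) (h := h) (w := EE S h ∪ W) (p := wv h s j) (k := s.2 + 2)
      (cc_lab (by rw [show s.2 + 2 - 1 = s.2 + 1 by ring]; exact h1))
      (by rw [show s.2 + 2 - 1 = s.2 + 1 by ring]; exact mem_union_left _ h1)
    rwa [show s.2 + 2 - 1 = s.2 + 1 by ring] at this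
  have g2 : Go S h (EE S h ∪ W) (oc (wv h s j + dir (s.2 + 1)) (s.2 + 1)) (oc (wv h s (j + 1)) s.2)
      (-1) := by
    have := Go.opn (S := S) (h := h) (w := EE S h ∪ W) (p := wv h s j + dir (s.2 + 1))
      (k := s.2 + 1)
      (cc_lab (by rw [show s.2 + 1 - 1 = s.2 by ring, e2]; exact h2))
      (by rw [show s.2 + 1 - 1 = s.2 by ring, e2]; exact mem_union_left _ h2)
    rwa [show s.2 + 1 - 1 = s.2 by ring, e1] at this
  exact (g1.trans g2).cast (by norm_num)

/-- at an inner vertex of a free side -/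
lemma go_exi_ent {i : ℕ} (hi : S.Fr i) {j : ℕ} (hj1 : 1 ≤ j) (hj : j < h) :
    Go S h (EE S h ∪ W) (exi h (S.P.side i) j) (ent h (S.P.side i) j) 2 := by
  set s := S.P.side i with hs
  have hv := fv_inner hh hi hj1 hj
  have g1 := Go.closed (S := S) (h := h) (w := EE S h ∪ W) (p := wv h s j) (k := s.2) (cc_fv hv)
    (free_out hh hW hi (ly_out' hh _ hj1 hj.le))
  have g2 := Go.closed (S := S) (h := h) (w := EE S h ∪ W) (p := wv h s j) (k := s.2 + 1) (cc_fv hv)
    (by rw [show s.2 + 1 - 1 = s.2 by ring]; exact free_out hh hW hi (ly_out hh _ hj))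
  have := g1.trans g2
  rw [show s.2 + 1 + 1 = s.2 + 2 by ring] at this
  exact this.cast (by norm_num)

/-- between two free sides -/
lemma go_corner {i : ℕ} (hi : S.Fr i) (hi' : S.Fr (i + 1)) :
    Go S h (EE S h ∪ W) (exi h (S.P.side i) h) (ent h (S.P.side (i + 1)) 0)
      (S.k (i + 1) - S.k i + 2) := by
  have hv := fv_corner hh hi hi'
  have e0 : wv h (S.P.side (i + 1)) 0 = wv h (S.P.side i) h := by
    rw [S.succ, wv_last h S.P.Q]
  set s := S.P.side i with hs
  set p := wv h s h with hp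
  rw [e0] at hv
  have a1 : ql p (s.2 - 1) ∉ EE S h ∪ W := free_out hh hW hi (ly_out' hh _ hh le_rfl)
  have b1 : ql p (S.P.side (i + 1)).2 ∉ EE S h ∪ W := by
    rw [← e0]; exact free_out hh hW hi' (ly_out hh _ hh)
  have g1 := Go.closed (S := S) (h := h) (w := EE S h ∪ W) (p := p) (k := s.2) (cc_fv hv) a1
  have hE : ent h (S.P.side (i + 1)) 0 = oc p ((S.P.side (i + 1)).2 + 2) := by
    unfold ent; rw [e0]
  rw [hE]
  change Go S h (EE S h ∪ W) (oc p s.2) _ _
  have hsn := S.succ i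
  rw [← hs] at hsn
  rcases turn_cases S.P.Q s with ⟨h1, -⟩ | ⟨h1, -⟩ | ⟨h1, -⟩
  · have e : (S.P.side (i + 1)).2 = s.2 - 1 := by rw [hsn, h1]
    have ek : S.k (i + 1) - S.k i + 2 = 1 := by
      unfold Shape.k; rw [e, ← hs]; ring
    rw [e, ek, show s.2 - 1 + 2 = s.2 + 1 by ring]
    exact g1
  · have e : (S.P.side (i + 1)).2 = s.2 := by rw [hsn, h1]
    have ek : S.k (i + 1) - S.k i + 2 = 2 := by
      unfold Shape.k; rw [e, ← hs]; ring
    rw [e] at b1
    rw [e, ek]
    have g2 := Go.closed (S := S) (h := h) (w := EE S h ∪ W) (p := p) (k := s.2 + 1) (cc_fv hv)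
      (by rw [show s.2 + 1 - 1 = s.2 by ring]; exact b1)
    have := g1.trans g2
    rw [show s.2 + 1 + 1 = s.2 + 2 by ring] at this
    exact this.cast (by norm_num)
  · have e : (S.P.side (i + 1)).2 = s.2 + 1 := by rw [hsn, h1]
    have ek : S.k (i + 1) - S.k i + 2 = 3 := by
      unfold Shape.k; rw [e, ← hs]; ring
    rw [e] at b1
    rw [e, ek]
    have c1 : ql p s.2 ∉ EE S h ∪ W := by
      rw [mem_union, not_or]
      refine ⟨diag_notMem hh h1, ?_⟩
      have := hW.diag i hi hi' (by rw [hsn, h1])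
      rw [e0] at this
      exact this
    have g2 := Go.closed (S := S) (h := h) (w := EE S h ∪ W) (p := p) (k := s.2 + 1) (cc_fv hv)
      (by rw [show s.2 + 1 - 1 = s.2 by ring]; exact c1)
    have g3 := Go.closed (S := S) (h := h) (w := EE S h ∪ W) (p := p) (k := s.2 + 1 + 1) (cc_fv hv)
      (by rw [show s.2 + 1 + 1 - 1 = s.2 + 1 by ring]; exact b1)
    have := (g1.trans g2).trans g3
    rw [show s.2 + 1 + 1 + 1 = s.2 + 1 + 2 by ring] at this
    exact this.cast (by norm_num)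

/-- along a free side -/
lemma go_free_side {i : ℕ} (hi : S.Fr i) : ∀ j < h,
    Go S h (EE S h ∪ W) (ent h (S.P.side i) 0) (ent h (S.P.side i) j) 0 := by
  intro j
  induction j with
  | zero => intro _; exact Go.refl _ _ _ _
  | succ j ih =>
    intro hj
    exact (((ih (by omega)).trans (go_ent_exi hh i (by omega))).trans
      (go_exi_ent hh hW hi (Nat.succ_pos j) hj)).cast (by norm_num)

/-- **(a)** along free sides, entry corners -/
theorem go_free {i : ℕ} : ∀ n : ℕ, (∀ l ≤ n, S.Fr (i + l)) → ∀ j < h,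
    Go S h (EE S h ∪ W) (ent h (S.P.side i) 0) (ent h (S.P.side (i + n)) j)
      (S.k (i + n) - S.k i) := by
  intro n
  induction n with
  | zero =>
    intro hf j hj
    exact (go_free_side hh hW (hf 0 le_rfl) j hj).cast (by rw [add_zero]; ring)
  | succ n ih =>
    intro hf j hj
    have g1 := ih (fun l hl => hf l (by omega)) (h - 1) (by omega)
    have g2 := go_ent_exi (W := W) hh (S := S) (i + n) (j := h - 1) (by omega)
    rw [show h - 1 + 1 = h by omega] at g2
    have g3 := go_corner hh hW (hf n (by omega)) (hf (n + 1) le_rfl)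
    have g4 := go_free_side hh hW (hf (n + 1) le_rfl) j hj
    exact (((g1.trans g2).trans g3).trans g4).cast (by rw [← add_assoc]; ring)

/-- **(a)** along free sides, exit corners -/
theorem go_free' {i : ℕ} (n : ℕ) (hf : ∀ l ≤ n, S.Fr (i + l)) {j : ℕ} (hj1 : 1 ≤ j) (hj : j ≤ h) :
    Go S h (EE S h ∪ W) (ent h (S.P.side i) 0) (exi h (S.P.side (i + n)) j)
      (S.k (i + n) - S.k i - 2) := by
  have g1 := go_free hh hW n hf (j - 1) (by omega)
  have g2 := go_ent_exi (W := W) hh (S := S) (i + n) (j := j - 1) (by omega)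
  rw [show j - 1 + 1 = j by omega] at g2
  exact (g1.trans g2).cast (by ring)

/-- **(a)**, with the last side as index -/
theorem go_free_idx {i i' : ℕ} (hii : i ≤ i') (hf : ∀ l, i ≤ l → l ≤ i' → S.Fr l) {j : ℕ}
    (hj : j < h) : Go S h (EE S h ∪ W) (ent h (S.P.side i) 0) (ent h (S.P.side i') j)
      (S.k i' - S.k i) := by
  have := go_free hh hW (i := i) (i' - i) (fun l hl => hf _ (by omega) (by omega)) j hj
  rwa [show i + (i' - i) = i' by omega] at this

theorem go_free_idx' {i i' : ℕ} (hii : i ≤ i') (hf : ∀ l, i ≤ l → l ≤ i' → S.Fr l) {j : ℕ}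
    (hj1 : 1 ≤ j) (hj : j ≤ h) : Go S h (EE S h ∪ W) (ent h (S.P.side i) 0)
      (exi h (S.P.side i') j) (S.k i' - S.k i - 2) := by
  have := go_free' hh hW (i := i) (i' - i) (fun l hl => hf _ (by omega) (by omega)) hj1 hj
  rwa [show i + (i' - i) = i' by omega] at this

end free

/-! ### (b) -/

section wired

variable (hh : 0 < h) (hW : Wir S h W)
include hh hW

omit hh in
lemma wir_ee {e : ℤ × ℤ} (he : e ∈ EE S h) : e ∉ W := disjoint_left.1 hW.disj he

/-- at an inner vertex of a side, no random label open -/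
lemma go_ent_exi_W (i : ℕ) {j : ℕ} (hj1 : 1 ≤ j) (hj : j < h) :
    Go S h W (ent h (S.P.side i) j) (exi h (S.P.side i) j) 2 := by
  set s := S.P.side i with hs
  have h1 : ql (wv h s j) (s.2 + 1) ∈ EE S h := in_mem hh (S.isSide i) hj
  have h2 : ql (wv h s j) (s.2 + 2) ∈ EE S h := in_mem' hh (S.isSide i) hj1 hj.le
  have e1 : s.2 + 2 - 1 = s.2 + 1 := by ring
  have e2 : s.2 + 2 + 1 - 1 = s.2 + 2 := by ring
  have g1 := Go.closed (S := S) (h := h) (w := W) (p := wv h s j) (k := s.2 + 2)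
    (cc_lab (by rw [e1]; exact h1)) (by rw [e1]; exact wir_ee hW h1)
  have g2 := Go.closed (S := S) (h := h) (w := W) (p := wv h s j) (k := s.2 + 2 + 1)
    (cc_lab (by rw [e2]; exact h2)) (by rw [e2]; exact wir_ee hW h2)
  have := g1.trans g2
  have e3 : oc (wv h s j) (s.2 + 2 + 1 + 1) = exi h s j := oc_congr _ (by omega)
  rw [e3] at this
  exact this.cast (by norm_num)

/-- the cap of a wired side -/
lemma go_exi_ent_W {i : ℕ} (hi : S.Wd i) {j : ℕ} (hj : j < h) :
    Go S h W (exi h (S.P.side i) (j + 1)) (ent h (S.P.side i) j) (-2) := by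
  set s := S.P.side i with hs
  have n1 := nx_exi (w := W) hh (s := s) (j := j + 1) (by omega) (by omega) (hW.wired i hi)
  have n2 := nx_mid (w := W) hh (s := s) (j := j) hj (hW.wired i hi)
  refine ⟨2, ?_, ?_, ?_⟩
  · change nx W (nx W (exi h s (j + 1))) = _
    rw [n1.1, n2.1]
  · intro t ht
    have : t = 0 ∨ t = 1 := by omega
    rcases this with rfl | rfl
    · exact Or.inr (Or.inr ⟨i, hi, j + 1, by omega, by omega, Or.inl rfl⟩)
    · change CC S h (nx W (exi h s (j + 1)))
      rw [n1.1]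
      exact Or.inr (Or.inr ⟨i, hi, j + 1, by omega, by omega, Or.inr rfl⟩)
  · intro k
    rw [show (2 : ℕ) = 0 + 1 + 1 from rfl, KK_succ, KK_succ, KK_zero]
    change k + del W (exi h s (j + 1)) + del W (nx W (exi h s (j + 1))) = _
    rw [n1.1, n1.2, n2.2]
    ring

/-- at the end of a side, no random label open, backwards -/
lemma go_corner_W (i : ℕ) :
    Go S h W (ent h (S.P.side (i + 1)) 0) (exi h (S.P.side i) h)
      (S.k i - S.k (i + 1) + 2) := by
  have e0 : wv h (S.P.side (i + 1)) 0 = wv h (S.P.side i) h := by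
    rw [S.succ, wv_last h S.P.Q]
  set s := S.P.side i with hs
  set p := wv h s h with hp
  have a1 : ql p (s.2 + 2) ∈ EE S h := in_mem' hh (S.isSide i) hh le_rfl
  have b1 : ql p ((S.P.side (i + 1)).2 + 1) ∈ EE S h := by
    rw [← e0]; exact in_mem hh (S.isSide (i + 1)) hh
  have hE : ent h (S.P.side (i + 1)) 0 = oc p ((S.P.side (i + 1)).2 + 2) := by
    unfold ent; rw [e0]
  rw [hE]
  have hsn := S.succ i
  rw [← hs] at hsn
  have cl : ∀ k : ℤ, ql p (k - 1) ∈ EE S h → Go S h W (oc p k) (oc p (k + 1)) 1 := fun k hk =>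
    Go.closed (cc_lab hk) (wir_ee hW hk)
  rcases turn_cases S.P.Q s with ⟨h1, h2⟩ | ⟨h1, h2⟩ | ⟨h1, h2⟩
  · have e : (S.P.side (i + 1)).2 = s.2 - 1 := by rw [hsn, h1]
    have ek : S.k i - S.k (i + 1) + 2 = 3 := by
      unfold Shape.k; rw [e, ← hs]; ring
    have c1 : ql p (s.2 + 1) ∈ EE S h := by
      unfold EE
      rw [mem_TL (by positivity)]
      exact ⟨ql_odd _ _, by rw [ct_beyond hh]; exact mid_mem S.P.good (S.isSide i) h2⟩
    rw [e] at b1
    rw [e, ek]
    have g1 := cl (s.2 - 1 + 2) (by rw [show s.2 - 1 + 2 - 1 = s.2 - 1 + 1 by ring]; exact b1)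
    have g2 := cl (s.2 - 1 + 2 + 1) (by rw [show s.2 - 1 + 2 + 1 - 1 = s.2 + 1 by ring]; exact c1)
    have g3 := cl (s.2 - 1 + 2 + 1 + 1) (by
      rw [show s.2 - 1 + 2 + 1 + 1 - 1 = s.2 + 2 by ring]; exact a1)
    have := (g1.trans g2).trans g3
    have e3 : oc p (s.2 - 1 + 2 + 1 + 1 + 1) = exi h s h := oc_congr _ (by omega)
    rw [e3] at this
    exact this.cast (by norm_num)
  · have e : (S.P.side (i + 1)).2 = s.2 := by rw [hsn, h1]
    have ek : S.k i - S.k (i + 1) + 2 = 2 := by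
      unfold Shape.k; rw [e, ← hs]; ring
    rw [e] at b1
    rw [e, ek]
    have g1 := cl (s.2 + 2) (by rw [show s.2 + 2 - 1 = s.2 + 1 by ring]; exact b1)
    have g2 := cl (s.2 + 2 + 1) (by rw [show s.2 + 2 + 1 - 1 = s.2 + 2 by ring]; exact a1)
    have := g1.trans g2
    have e3 : oc p (s.2 + 2 + 1 + 1) = exi h s h := oc_congr _ (by omega)
    rw [e3] at this
    exact this.cast (by norm_num)
  · have e : (S.P.side (i + 1)).2 = s.2 + 1 := by rw [hsn, h1]
    have ek : S.k i - S.k (i + 1) + 2 = 1 := by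
      unfold Shape.k; rw [e, ← hs]; ring
    rw [e, ek]
    have g1 := cl (s.2 + 1 + 2) (by rw [show s.2 + 1 + 2 - 1 = s.2 + 2 by ring]; exact a1)
    have e3 : oc p (s.2 + 1 + 2 + 1) = exi h s h := oc_congr _ (by omega)
    rw [e3] at g1
    exact g1

/-- along a wired side, backwards -/
lemma go_wired_side {i : ℕ} (hi : S.Wd i) : ∀ l, l < h →
    Go S h W (exi h (S.P.side i) h) (exi h (S.P.side i) (h - l)) 0 := by
  intro l
  induction l with
  | zero => intro _; exact Go.refl _ _ _ _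
  | succ l ih =>
    intro hl
    have g1 := ih (by omega)
    have g2 := go_exi_ent_W hh hW hi (j := h - (l + 1)) (by omega)
    rw [show h - (l + 1) + 1 = h - l by omega] at g2
    have g3 := go_ent_exi_W hh hW i (j := h - (l + 1)) (by omega) (by omega)
    exact ((g1.trans g2).trans g3).cast (by norm_num)

/-- **(b)** along wired sides, backwards, exit corners -/
theorem go_wired {i : ℕ} : ∀ n : ℕ, (∀ l ≤ n, S.Wd (i + l)) → ∀ j, 1 ≤ j → j ≤ h →
    Go S h W (ent h (S.P.side (i + n + 1)) 0) (exi h (S.P.side i) j)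
      (S.k i - S.k (i + n + 1) + 2) := by
  intro n
  induction n generalizing i with
  | zero =>
    intro hf j hj1 hj
    have g1 := go_corner_W hh hW i
    have g2 := go_wired_side hh hW (hf 0 le_rfl) (h - j) (by omega)
    rw [show h - (h - j) = j by omega] at g2
    exact (g1.trans g2).cast (by rw [add_zero])
  | succ n ih =>
    intro hf j hj1 hj
    have g1 := ih (i := i + 1) (fun l hl => by
      have := hf (l + 1) (by omega)
      rwa [show i + 1 + l = i + (l + 1) by ring]) 1 le_rfl hh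
    have g2 := go_exi_ent_W hh hW (hf 1 (by omega)) (j := 0) hh
    rw [zero_add] at g2
    have g3 := go_corner_W hh hW i
    have g4 := go_wired_side hh hW (hf 0 (by omega)) (h - j) (by omega)
    rw [show h - (h - j) = j by omega] at g4
    have := ((g1.trans g2).trans g3).trans g4
    rw [show i + 1 + n + 1 = i + (n + 1) + 1 by ring] at this
    exact this.cast (by ring)

/-- **(b)** along wired sides, backwards, entry corners -/
theorem go_wired' {i : ℕ} (n : ℕ) (hf : ∀ l ≤ n, S.Wd (i + l)) {j : ℕ} (hj : j < h) :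
    Go S h W (ent h (S.P.side (i + n + 1)) 0) (ent h (S.P.side i) j)
      (S.k i - S.k (i + n + 1)) := by
  have g1 := go_wired hh hW n hf (j + 1) (by omega) (by omega)
  have g2 := go_exi_ent_W hh hW (hf 0 (by omega)) (j := j) hj
  exact (g1.trans g2).cast (by ring)

/-- **(b)**, with the last side as index -/
theorem go_wired_idx {i i' : ℕ} (hii : i ≤ i') (hf : ∀ l, i ≤ l → l ≤ i' → S.Wd l) {j : ℕ}
    (hj1 : 1 ≤ j) (hj : j ≤ h) : Go S h W (ent h (S.P.side (i' + 1)) 0) (exi h (S.P.side i) j)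
      (S.k i - S.k (i' + 1) + 2) := by
  have := go_wired hh hW (i := i) (i' - i) (fun l hl => hf _ (by omega) (by omega)) j hj1 hj
  rwa [show i + (i' - i) + 1 = i' + 1 by omega] at this

theorem go_wired_idx' {i i' : ℕ} (hii : i ≤ i') (hf : ∀ l, i ≤ l → l ≤ i' → S.Wd l) {j : ℕ}
    (hj : j < h) : Go S h W (ent h (S.P.side (i' + 1)) 0) (ent h (S.P.side i) j)
      (S.k i - S.k (i' + 1)) := by
  have := go_wired' hh hW (i := i) (i' - i) (fun l hl => hf _ (by omega) (by omega)) hj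
  rwa [show i + (i' - i) + 1 = i' + 1 by omega] at this

end wired

end Pool.Agent.H21.FM
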