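import Mathlib
import Pool.Agent.H21.FM.Strand

set_option autoImplicit false
open Finset

/-! # The shape seen from the third mark

`S.rot`: the same polygon, the first mark of `S.rot` is the third mark of `S`. -/

namespace Pool.Agent.H21.FM

open Pool.Agent.H75.Perc hiding WL CT hh
open Pool.Agent.H75.TwoArm Pool.Agent.H75.Four Pool.Agent.H69.Q1 Pool.Agent.Q1
open Pool.Agent.H5.Q1 (oc vx_oc ty_oc fi_oc oc_congr oc_inj eq_oc nxC_oc nxO_oc oc_cases)
open Pool.Agent.Q1.M4 (Cell Good IsSide nextSide tail head PType Adj4 Conn4 dir_add_four)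
open Pool.Agent.H33.Q1

/-- the side one turn later -/
def up4 (s : Cell × ℤ) : Cell × ℤ := (s.1, s.2 + 4)

lemma nextSide_up4 (Q : Finset Cell) (s : Cell × ℤ) : nextSide Q (up4 s) = up4 (nextSide Q s) := by
  have e1 : dir (s.2 + 4) = dir s.2 := dir_add_four _
  have e2 : dir (s.2 + 4 - 1) = dir (s.2 - 1) := by
    rw [show s.2 + 4 - 1 = s.2 - 1 + 4 by ring, dir_add_four]
  unfold nextSide up4
  simp only [e1, e2]
  split_ifs
  · exact Prod.ext rfl (by simp only; ring)
  · rfl
  · exact Prod.ext rfl (by simp only; ring)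

lemma iter_up4 (Q : Finset Cell) (n : ℕ) (s : Cell × ℤ) :
    (nextSide Q)^[n] (up4 s) = up4 ((nextSide Q)^[n] s) := by
  induction n with
  | zero => rfl
  | succ n ih => rw [Function.iterate_succ_apply', Function.iterate_succ_apply', ih, nextSide_up4]

lemma tail_up4 (s : Cell × ℤ) : tail (up4 s) = tail s := by
  unfold tail up4
  simp only [Int.add_emod_right]

lemma LY_up4 (n : ℤ) (s : Cell × ℤ) : LY n (up4 s) = LY n s := by
  unfold LY up4
  simp only
  rw [show s.2 + 4 - 1 = s.2 - 1 + 4 by ring, dir_add_four]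

lemma wv_up4 (h : ℕ) (s : Cell × ℤ) (j : ℕ) : wv h (up4 s) j = wv h s j :=
  wv_congr h (k := s.2 + 4) (l := s.2) (by omega) j

lemma exi_up4 (h : ℕ) (s : Cell × ℤ) (j : ℕ) : exi h (up4 s) j = exi h s j := by
  unfold exi
  rw [wv_up4]
  exact oc_congr _ (show (s.2 + 4) % 4 = s.2 % 4 by omega)

lemma ent_up4 (h : ℕ) (s : Cell × ℤ) (j : ℕ) : ent h (up4 s) j = ent h s j := by
  unfold ent
  rw [wv_up4]
  exact oc_congr _ (show (s.2 + 4 + 2) % 4 = (s.2 + 2) % 4 by omega)

lemma mid_up4 (h : ℕ) (s : Cell × ℤ) (j : ℕ) : mid h (up4 s) j = mid h s j := by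
  unfold mid
  rw [wv_up4]
  have e : dir ((up4 s).2 - 1) = dir (s.2 - 1) := by
    unfold up4
    simp only
    rw [show s.2 + 4 - 1 = s.2 - 1 + 4 by ring, dir_add_four]
  rw [e]
  exact oc_congr _ (show (s.2 + 4 - 1) % 4 = (s.2 - 1) % 4 by omega)

namespace Shape

variable (S : Shape)

/-- the sides after one turn -/
lemma side_add (i : ℕ) : S.P.side (S.N + i) = up4 (S.P.side i) := by
  unfold PType.side
  rw [add_comm, Function.iterate_add_apply, S.P.period]
  exact iter_up4 _ _ _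

lemma side_add' (i : ℕ) : S.P.side (i + S.N) = up4 (S.P.side i) := by
  rw [add_comm]; exact S.side_add i

lemma k_add (i : ℕ) : S.k (i + S.N) = S.k i + 4 := by
  unfold k
  rw [side_add']
  rfl

/-- the convex corners, all turns -/
lemma cvx_add {i j : ℕ} (hi : i + 1 = S.N + j)
    (hj : j = 0 ∨ j = S.m2 ∨ j = S.m3 ∨ j = S.P.m ∨ j = S.P.N) :
    S.P.side (i + 1) = ((S.P.side i).1, (S.P.side i).2 + 1) := by
  have hN : 0 < S.N := lt_of_le_of_lt (Nat.zero_le _) S.m4N
  rcases Nat.eq_zero_or_pos j with h0 | h0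
  · subst h0
    exact S.cvx i (Or.inr (Or.inr (Or.inr (by have : S.N = S.P.N := rfl; omega))))
  · obtain ⟨l, rfl⟩ : ∃ l, j = l + 1 := ⟨j - 1, by omega⟩
    have e : i = S.N + l := by omega
    have e2 : i + 1 = S.N + (l + 1) := by omega
    have h1 := S.cvx l (by omega)
    rw [e2, side_add, e, side_add, h1]
    refine Prod.ext rfl ?_
    unfold up4
    simp only
    ring

/-- **The shape seen from the third mark.** -/
def rot : Shape where
  P :=
    { Q := S.P.Q
      good := S.P.good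
      s0 := S.P.side S.m3
      N := S.P.N
      m := S.P.N - S.m3 + S.m2
      hm0 := by
        have := S.h02; omega
      hmN := by
        have h1 := S.h23; have h2 := S.h34; have h3 := S.P.hmN
        omega
      side0 := S.isSide _
      period := by
        have h1 := S.side_add S.m3
        unfold PType.side at h1 ⊢
        rw [Function.iterate_add_apply] at h1
        exact h1
      all := by
        intro s hs
        obtain ⟨n, hn, h1, h2⟩ := S.P.all s hs
        have key : ∀ n', (nextSide S.P.Q)^[n'] (S.P.side S.m3) = S.P.side (n' + S.m3) := by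
          intro n'
          unfold PType.side
          rw [Function.iterate_add_apply]
        have h3 := S.h23; have h4 := S.h34; have h5 := S.P.hmN
        rcases Nat.lt_or_ge n S.m3 with hlt | hge
        · refine ⟨n + S.P.N - S.m3, by omega, ?_⟩
          rw [key, show n + S.P.N - S.m3 + S.m3 = n + S.N from by
            have : S.N = S.P.N := rfl
            omega, side_add']
          refine ⟨h1, ?_⟩
          change (((nextSide S.P.Q)^[n] S.P.s0).2 + 4 - s.2) % 4 = 0
          omega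
        · refine ⟨n - S.m3, by omega, ?_⟩
          rw [key, show n - S.m3 + S.m3 = n by omega]
          exact ⟨h1, h2⟩
      inj := by
        intro n hn n' hn' h1 h2
        have key : ∀ n', (nextSide S.P.Q)^[n'] (S.P.side S.m3) = S.P.side (n' + S.m3) := by
          intro n'
          unfold PType.side
          rw [Function.iterate_add_apply]
        rw [key, key] at h1 h2
        have h3 := S.h23; have h4 := S.h34; have h5 := S.P.hmN
        have hNN : S.N = S.P.N := rfl
        -- reduce the index modulo `N`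
        have red : ∀ n, n < S.P.N → ∃ l, l < S.P.N ∧ (S.P.side (n + S.m3)).1 = (S.P.side l).1 ∧
            ((S.P.side (n + S.m3)).2 - (S.P.side l).2) % 4 = 0 ∧
            (l = n + S.m3 ∨ l + S.P.N = n + S.m3) := by
          intro n hn
          rcases Nat.lt_or_ge (n + S.m3) S.P.N with hlt | hge
          · exact ⟨n + S.m3, hlt, rfl, by simp, Or.inl rfl⟩
          · refine ⟨n + S.m3 - S.P.N, by omega, ?_, ?_, Or.inr (by omega)⟩
            · have e : n + S.m3 = S.N + (n + S.m3 - S.P.N) := by omega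
              conv_lhs => rw [e, side_add]
              rfl
            · have e : n + S.m3 = S.N + (n + S.m3 - S.P.N) := by omega
              have e2 : (S.P.side (n + S.m3)).2 = (S.P.side (n + S.m3 - S.P.N)).2 + 4 := by
                conv_lhs => rw [e, side_add]
                rfl
              rw [e2]
              omega
        obtain ⟨l, hl, a1, a2, a3⟩ := red n hn
        obtain ⟨l', hl', b1, b2, b3⟩ := red n' hn'
        have := S.P.inj l hl l' hl' (by
          change (S.P.side l).1 = (S.P.side l').1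
          rw [← a1, ← b1]; exact h1) (by
          change ((S.P.side l).2 - (S.P.side l').2) % 4 = 0
          omega)
        omega }
  m2 := S.m4 - S.m3
  m3 := S.P.N - S.m3
  h02 := by
    have h1 := S.h34
    have h2 : S.m4 = S.P.m := rfl
    omega
  h23 := by
    have h1 := S.P.hmN; have h2 := S.h34; have h3 : S.m4 = S.P.m := rfl
    omega
  h34 := by
    have := S.h02
    change S.P.N - S.m3 < S.P.N - S.m3 + S.m2
    omega
  cvx := by
    intro i hi
    have key : ∀ n', (nextSide S.P.Q)^[n'] (S.P.side S.m3) = S.P.side (n' + S.m3) := by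
      intro n'
      unfold PType.side
      rw [Function.iterate_add_apply]
    change i + 1 = S.m4 - S.m3 ∨ i + 1 = S.P.N - S.m3 ∨ i + 1 = S.P.N - S.m3 + S.m2 ∨
      i + 1 = S.P.N at hi
    change (nextSide S.P.Q)^[i + 1] (S.P.side S.m3) = (((nextSide S.P.Q)^[i] (S.P.side S.m3)).1,
      ((nextSide S.P.Q)^[i] (S.P.side S.m3)).2 + 1)
    rw [key, key]
    have h1 := S.h23; have h2 := S.h34; have h3 := S.P.hmN
    have hNN : S.N = S.P.N := rfl
    have h44 : S.m4 = S.P.m := rfl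
    have e : i + 1 + S.m3 = (i + S.m3) + 1 := by omega
    rw [e]
    rcases hi with hi | hi | hi | hi
    · exact S.cvx _ (Or.inr (Or.inr (Or.inl (by omega))))
    · exact S.cvx _ (Or.inr (Or.inr (Or.inr (by omega))))
    · exact S.cvx_add (j := S.m2) (by omega) (by tauto)
    · exact S.cvx_add (j := S.m3) (by omega) (by tauto)

@[simp] lemma rot_Q : S.rot.P.Q = S.P.Q := rfl
@[simp] lemma rot_N : S.rot.N = S.N := rfl
@[simp] lemma rot_PN : S.rot.P.N = S.P.N := rfl
@[simp] lemma rot_m2 : S.rot.m2 = S.m4 - S.m3 := rfl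
@[simp] lemma rot_m3 : S.rot.m3 = S.N - S.m3 := rfl
@[simp] lemma rot_m4 : S.rot.m4 = S.N - S.m3 + S.m2 := rfl
@[simp] lemma rot_m : S.rot.P.m = S.P.N - S.m3 + S.m2 := rfl

lemma rot_side (i : ℕ) : S.rot.P.side i = S.P.side (S.m3 + i) := by
  change (nextSide S.P.Q)^[i] (S.P.side S.m3) = _
  unfold PType.side
  rw [add_comm, Function.iterate_add_apply]

lemma rot_k (i : ℕ) : S.rot.k i = S.k (S.m3 + i) := by
  unfold k
  rw [rot_side]

/-- the index in `S` of the side `i` of `S.rot` -/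
def ri (i : ℕ) : ℕ := if S.m3 + i < S.N then S.m3 + i else S.m3 + i - S.N

/-- the index in `S.rot` of the side `i` of `S` -/
def ir (i : ℕ) : ℕ := if S.m3 ≤ i then i - S.m3 else i + S.N - S.m3

variable {S}

lemma rot_side_ri (i : ℕ) : S.rot.P.side i = S.P.side (S.ri i) ∨
    S.rot.P.side i = up4 (S.P.side (S.ri i)) := by
  rw [rot_side]
  unfold ri
  split_ifs with h1
  · exact Or.inl rfl
  · right
    have e : S.m3 + i = S.N + (S.m3 + i - S.N) := by omega
    conv_lhs => rw [e, side_add]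

lemma rot_Fr {i : ℕ} (hi : i < S.N) : S.rot.Fr i ↔ S.Fr (S.ri i) := by
  obtain ⟨h1, h2, h3, h4⟩ := S.pos
  unfold Fr ri
  rw [rot_m2, rot_m3, rot_m4]
  split_ifs <;> omega

lemma rot_Wd {i : ℕ} (hi : i < S.N) : S.rot.Wd i ↔ S.Wd (S.ri i) := by
  obtain ⟨h1, h2, h3, h4⟩ := S.pos
  unfold Wd ri
  rw [rot_m2, rot_m3, rot_m4, rot_N]
  split_ifs <;> omega

lemma Fr.ltN {i : ℕ} (hi : S.Fr i) : i < S.N := lt_trans hi.lt S.m4N

lemma Wd.ltN {i : ℕ} (hi : S.Wd i) : i < S.N := by
  obtain ⟨h1, h2, h3, h4⟩ := S.pos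
  unfold Wd at hi
  omega

lemma ir_lt {i : ℕ} (hi : i < S.N) : S.ir i < S.N := by
  obtain ⟨h1, h2, h3, h4⟩ := S.pos
  unfold ir
  split_ifs <;> omega

lemma ri_ir {i : ℕ} (hi : i < S.N) : S.ri (S.ir i) = i := by
  obtain ⟨h1, h2, h3, h4⟩ := S.pos
  unfold ri ir
  split_ifs <;> omega

lemma ri_lt {i : ℕ} (hi : i < S.N) : S.ri i < S.N := by
  obtain ⟨h1, h2, h3, h4⟩ := S.pos
  unfold ri
  split_ifs <;> omega

end Shape

variable {S : Shape} {h : ℕ}

/-- a property of the sides which does not depend on the turn -/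
lemma rot_all {P : Cell × ℤ → Prop} (hP : ∀ s, P (up4 s) ↔ P s) {F : ℕ → Prop} {F' : ℕ → Prop}
    (hF : ∀ i < S.N, F' i ↔ F (S.ri i)) (h1 : ∀ i, F i → i < S.N) (h2 : ∀ i, F' i → i < S.N) :
    (∀ i, F' i → P (S.rot.P.side i)) ↔ ∀ i, F i → P (S.P.side i) := by
  constructor
  · intro h i hi
    have hi' := h1 i hi
    have := h (S.ir i) ((hF _ (Shape.ir_lt hi')).2 (by rw [Shape.ri_ir hi']; exact hi))
    rcases Shape.rot_side_ri (S := S) (S.ir i) with e | e
    · rw [e, Shape.ri_ir hi'] at this; exact this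
    · rw [e, Shape.ri_ir hi', hP] at this; exact this
  · intro h i hi
    have hi' := h2 i hi
    have := h (S.ri i) ((hF i hi').1 hi)
    rcases Shape.rot_side_ri (S := S) i with e | e
    · rw [e]; exact this
    · rw [e, hP]; exact this

@[simp] lemma rot_EE : EE S.rot h = EE S h := rfl

/-- **The admissible wired labels are the same.** -/
theorem rot_Wir {W : Finset (ℤ × ℤ)} : Wir S.rot h W ↔ Wir S h W := by
  have a1 := rot_all (S := S) (P := fun s => LY (2 * h) s ⊆ W) (fun s => by rw [LY_up4])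
    (F := S.Wd) (F' := S.rot.Wd) (fun i hi => Shape.rot_Wd hi) (fun i hi => hi.ltN)
    (fun i hi => hi.ltN)
  have a2 := rot_all (S := S) (P := fun s => Disjoint (LY (2 * h) s) W) (fun s => by rw [LY_up4])
    (F := S.Fr) (F' := S.rot.Fr) (fun i hi => Shape.rot_Fr hi) (fun i hi => hi.ltN)
    (fun i hi => hi.ltN)
  obtain ⟨p1, p2, p3, p4⟩ := S.pos
  -- the diagonal condition of one corner
  have dg : ∀ i, (S.P.side (S.N + i + 1) = ((S.P.side (S.N + i)).1, (S.P.side (S.N + i)).2 + 1) ↔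
      S.P.side (i + 1) = ((S.P.side i).1, (S.P.side i).2 + 1)) ∧
      ql (wv h (S.P.side (S.N + i + 1)) 0) (S.k (S.N + i)) =
        ql (wv h (S.P.side (i + 1)) 0) (S.k i) := by
    intro i
    rw [add_assoc, S.side_add, S.side_add]
    refine ⟨?_, ?_⟩
    · unfold up4
      simp only [Prod.ext_iff]
      constructor
      · rintro ⟨h1, h2⟩; exact ⟨h1, by omega⟩
      · rintro ⟨h1, h2⟩; exact ⟨h1, by omega⟩
    · rw [wv_up4]
      apply ql_congr
      rw [add_comm, S.k_add]
      omega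
  constructor
  · rintro ⟨h1, h2, h3, h4, h5⟩
    refine ⟨h1, h2, a1.1 h3, a2.1 h4, ?_⟩
    intro i hi hi' hs
    rcases Nat.lt_or_ge i S.m3 with hlt | hge
    · have hi2 : i + 1 < S.m2 := by
        unfold Shape.Fr at hi hi'
        omega
      have e : S.m3 + (S.N - S.m3 + i) = S.N + i := by omega
      have g := h5 (S.N - S.m3 + i) (Or.inr ⟨by rw [Shape.rot_m3]; omega,
        by rw [Shape.rot_m4]; omega⟩) (Or.inr ⟨by rw [Shape.rot_m3]; omega,
        by rw [Shape.rot_m4]; omega⟩)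
      rw [Shape.rot_side, Shape.rot_side, Shape.rot_k, ← add_assoc, e] at g
      rw [(dg i).1, (dg i).2] at g
      exact g hs
    · have hi2 : i + 1 < S.m4 := by
        unfold Shape.Fr at hi hi'
        omega
      have e : S.m3 + (i - S.m3) = i := by omega
      have g := h5 (i - S.m3) (Or.inl (by rw [Shape.rot_m2]; omega))
        (Or.inl (by rw [Shape.rot_m2]; omega))
      rw [Shape.rot_side, Shape.rot_side, Shape.rot_k, ← add_assoc, e] at g
      exact g hs
  · rintro ⟨h1, h2, h3, h4, h5⟩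
    refine ⟨h1, h2, a1.2 h3, a2.2 h4, ?_⟩
    intro i hi hi' hs
    rw [Shape.rot_side, Shape.rot_side, ← add_assoc] at hs
    rw [Shape.rot_side, Shape.rot_k, ← add_assoc]
    rcases hi with hi | hi
    · rw [Shape.rot_m2] at hi
      have hi2 : i + 1 < S.m4 - S.m3 := by
        rcases hi' with hi' | hi'
        · rw [Shape.rot_m2] at hi'; exact hi'
        · rw [Shape.rot_m3] at hi'; omega
      exact h5 _ (Or.inr ⟨by omega, by omega⟩) (Or.inr ⟨by omega, by omega⟩) hs
    · rw [Shape.rot_m3, Shape.rot_m4] at hi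
      have hi2 : i + 1 < S.N - S.m3 + S.m2 := by
        rcases hi' with hi' | hi'
        · rw [Shape.rot_m2] at hi'; omega
        · rw [Shape.rot_m4] at hi'; exact hi'.2
      obtain ⟨l, hl⟩ : ∃ l, S.m3 + i = S.N + l := ⟨S.m3 + i - S.N, by omega⟩
      rw [hl] at hs ⊢
      rw [(dg l).1] at hs
      rw [(dg l).2]
      exact h5 l (Or.inl (by omega)) (Or.inl (by omega)) hs

/-- the standard wired labels are the same -/
lemma rot_W0 : W0 S.rot h = W0 S h := by
  obtain ⟨p1, p2, p3, p4⟩ := S.pos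
  have hm : ∀ (S : Shape) (e : ℤ × ℤ), e ∈ W0 S h ↔ ∃ i, S.Wd i ∧ e ∈ LY (2 * h) (S.P.side i) := by
    intro S e
    unfold W0 Shape.Wd
    rw [mem_biUnion]
    simp only [mem_union, mem_Ico]
  ext e
  rw [hm, hm]
  constructor
  · rintro ⟨i, hi, he⟩
    refine ⟨S.ri i, (Shape.rot_Wd (S := S) hi.ltN).1 hi, ?_⟩
    rcases Shape.rot_side_ri (S := S) i with e' | e'
    · rw [← e']; exact he
    · rw [e', LY_up4] at he; exact he
  · rintro ⟨i, hi, he⟩
    have h0 := hi.ltN
    refine ⟨S.ir i, (Shape.rot_Wd (Shape.ir_lt h0)).2 (by rw [Shape.ri_ir h0]; exact hi), ?_⟩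
    rcases Shape.rot_side_ri (S := S) (S.ir i) with e' | e'
    · rw [e', Shape.ri_ir h0]; exact he
    · rw [e', Shape.ri_ir h0, LY_up4]; exact he

lemma rot_v1 : v1 S.rot h = v3 S h := by
  unfold v1 v3
  rw [Shape.rot_side, add_zero]

lemma rot_v3 : v3 S.rot h = v1 S h := by
  obtain ⟨p1, p2, p3, p4⟩ := S.pos
  unfold v1 v3
  rw [Shape.rot_side, Shape.rot_m3, show S.m3 + (S.N - S.m3) = S.N + 0 by omega, S.side_add, wv_up4]

lemma rot_k0 : S.rot.k 0 = S.k S.m3 := by rw [Shape.rot_k, add_zero]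

lemma rot_km3 : S.rot.k S.rot.m3 = S.k 0 + 4 := by
  obtain ⟨p1, p2, p3, p4⟩ := S.pos
  rw [Shape.rot_k, Shape.rot_m3, show S.m3 + (S.N - S.m3) = 0 + S.N by omega, S.k_add]

lemma rot_r1 : r1 S.rot h = r3 S h := by
  unfold r1 r3
  rw [rot_v1, rot_k0]

lemma rot_r3 : r3 S.rot h = r1 S h := by
  unfold r1 r3
  rw [rot_v3, rot_km3]
  exact oc_congr _ (by omega)

lemma rot_c1 : c1 S.rot h = c3 S h := by
  unfold c1 c3
  rw [Shape.rot_side, add_zero]

lemma rot_c3 : c3 S.rot h = c1 S h := by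
  obtain ⟨p1, p2, p3, p4⟩ := S.pos
  unfold c1 c3
  rw [Shape.rot_side, Shape.rot_m3, show S.m3 + (S.N - S.m3) = S.N + 0 by omega, S.side_add, ent_up4]

lemma rot_e2 : e2 S.rot h = e4 S h := by
  obtain ⟨p1, p2, p3, p4⟩ := S.pos
  unfold e2 e4
  rw [Shape.rot_side, Shape.rot_m2, show S.m3 + (S.m4 - S.m3 - 1) = S.m4 - 1 by omega]

lemma rot_e4 : e4 S.rot h = e2 S h := by
  obtain ⟨p1, p2, p3, p4⟩ := S.pos
  unfold e2 e4
  rw [Shape.rot_side, Shape.rot_m4, show S.m3 + (S.N - S.m3 + S.m2 - 1) = S.N + (S.m2 - 1) by omega,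
    S.side_add, exi_up4]

lemma rot_FV {v : ℤ × ℤ} : FV S.rot h v ↔ FV S h v := by
  unfold FV
  simp only [rot_Wir, rot_EE]

lemma rot_CC {z : ℤ × ℤ} : CC S.rot h z ↔ CC S h z := by
  unfold CC
  rw [rot_EE, rot_FV]
  refine or_congr Iff.rfl (or_congr Iff.rfl ?_)
  constructor
  · rintro ⟨i, hi, j, h1, h2, h3⟩
    refine ⟨S.ri i, (Shape.rot_Wd (S := S) hi.ltN).1 hi, j, h1, h2, ?_⟩
    rcases Shape.rot_side_ri (S := S) i with e' | e'
    · rw [← e']; exact h3
    · rw [e', exi_up4, mid_up4] at h3; exact h3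
  · rintro ⟨i, hi, j, h1, h2, h3⟩
    have h0 := hi.ltN
    refine ⟨S.ir i, (Shape.rot_Wd (Shape.ir_lt h0)).2 (by rw [Shape.ri_ir h0]; exact hi), j, h1, h2,
      ?_⟩
    rcases Shape.rot_side_ri (S := S) (S.ir i) with e' | e'
    · rw [e', Shape.ri_ir h0]; exact h3
    · rw [e', Shape.ri_ir h0, exi_up4, mid_up4]; exact h3

lemma rot_TT {ω : Finset (ℤ × ℤ)} : TT S.rot h ω ↔ TT S h ω := by
  unfold TT
  rw [rot_W0, rot_v1, rot_v3]
  exact ⟨fun h => h.symm, fun h => h.symm⟩

lemma rot_C1 {v : ℤ × ℤ} {ω : Finset (ℤ × ℤ)} : C1 S.rot h v ω ↔ C3 S h v ω := by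
  unfold C1 C3
  rw [rot_W0, rot_v1]

lemma rot_C3 {v : ℤ × ℤ} {ω : Finset (ℤ × ℤ)} : C3 S.rot h v ω ↔ C1 S h v ω := by
  unfold C1 C3
  rw [rot_W0, rot_v3]

lemma rot_qn : qn S.rot h = qn S h := by
  unfold qn
  simp only [rot_TT, rot_EE]

/-! ### Twice -/

lemma rot_rot_m2 : S.rot.rot.m2 = S.m2 := by
  obtain ⟨p1, p2, p3, p4⟩ := S.pos
  rw [Shape.rot_m2, Shape.rot_m4, Shape.rot_m3]
  omega

lemma rot_rot_m3 : S.rot.rot.m3 = S.m3 := by
  obtain ⟨p1, p2, p3, p4⟩ := S.pos
  rw [Shape.rot_m3, Shape.rot_m3, Shape.rot_N]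
  omega

lemma rot_rot_m4 : S.rot.rot.m4 = S.m4 := by
  obtain ⟨p1, p2, p3, p4⟩ := S.pos
  rw [Shape.rot_m4, Shape.rot_m3, Shape.rot_N, Shape.rot_m2]
  omega

lemma rot_rot_side (i : ℕ) : S.rot.rot.P.side i = up4 (S.P.side i) := by
  obtain ⟨p1, p2, p3, p4⟩ := S.pos
  rw [Shape.rot_side, Shape.rot_side, Shape.rot_m3,
    show S.m3 + (S.N - S.m3 + i) = S.N + i by omega, S.side_add]

lemma rot_rot_k (i : ℕ) : S.rot.rot.k i = S.k i + 4 := by
  unfold Shape.k
  rw [rot_rot_side]
  rfl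

/-- sides of the arc III of `S` = sides of the arc I of `S.rot` -/
lemma rot_side_sub {i : ℕ} (hi : S.m3 ≤ i) : S.rot.P.side (i - S.m3) = S.P.side i := by
  rw [Shape.rot_side, show S.m3 + (i - S.m3) = i by omega]

lemma rot_k_sub {i : ℕ} (hi : S.m3 ≤ i) : S.rot.k (i - S.m3) = S.k i := by
  rw [Shape.rot_k, show S.m3 + (i - S.m3) = i by omega]

/-- sides of the arcs I, II of `S` = sides of the arcs III, IV of `S.rot`, one turn later -/
lemma rot_side_add (i : ℕ) : S.rot.P.side (i + S.rot.m3) = up4 (S.P.side i) := by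
  obtain ⟨p1, p2, p3, p4⟩ := S.pos
  rw [Shape.rot_side, Shape.rot_m3, show S.m3 + (i + (S.N - S.m3)) = S.N + i by omega, S.side_add]

lemma rot_k_add (i : ℕ) : S.rot.k (i + S.rot.m3) = S.k i + 4 := by
  unfold Shape.k
  rw [rot_side_add]
  rfl

end Pool.Agent.H21.FM
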